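import Mathlib

/-!
Net outflow, Eulerian orientations and joins in finite oriented multigraphs.
-/

set_option autoImplicit false
set_option linter.unusedSectionVars false

namespace Pool.Agent.Lib.MP_12428a_co

variable {V E : Type*} [DecidableEq V] [DecidableEq E]

/-- The net outflow of `f` at `v` in the multigraph with tails `t` and heads `h`. -/
def bd {A : Type*} [AddCommGroup A] [Fintype E] (t h : E → V) (f : E → A) (v : V) : A :=
  ∑ e, ((if t e = v then f e else 0) - (if h e = v then f e else 0))

lemma sum_bd {R : Type*} [CommRing R] [Fintype E] [Fintype V] (t h : E → V) (f : E → R)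
    (p : V → R) : ∑ v, p v * bd t h f v = ∑ e, (p (t e) - p (h e)) * f e := by
  simp only [bd, Finset.mul_sum]
  rw [Finset.sum_comm]
  apply Finset.sum_congr rfl
  intro e _
  simp only [mul_sub, Finset.sum_sub_distrib, mul_ite, mul_zero, Finset.sum_ite_eq,
    Finset.mem_univ, if_true]
  ring

lemma bd_eq_zero_of_test {R : Type*} [CommRing R] [Fintype E] [Fintype V] (t h : E → V)
    (f : E → R) (H : ∀ p : V → R, ∑ e, (p (t e) - p (h e)) * f e = 0) (v : V) :
    bd t h f v = 0 := by
  have h2 := (sum_bd t h f (fun w => if w = v then (1 : R) else 0)).trans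
    (H (fun w => if w = v then (1 : R) else 0))
  simpa using h2

lemma bd_add {A : Type*} [AddCommGroup A] [Fintype E] (t h : E → V) (f g : E → A) (v : V) :
    bd t h (fun e => f e + g e) v = bd t h f v + bd t h g v := by
  simp only [bd, ← Finset.sum_add_distrib]
  apply Finset.sum_congr rfl
  intro e _
  split_ifs <;> abel

/-- Eulerian orientations, in terms of test functions. -/
theorem euler_aux (n : ℕ) : ∀ (S : Finset E) (t h : E → V), S.card = n →
    (∀ p : V → ZMod 2, ∑ e ∈ S, (p (t e) + p (h e)) = 0) →
    ∃ f : E → ℤ, (∀ e ∈ S, f e = 1 ∨ f e = -1) ∧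
      ∀ p : V → ℤ, ∑ e ∈ S, f e * (p (t e) - p (h e)) = 0 := by
  induction n with
  | zero =>
    intro S t h hS _
    rw [Finset.card_eq_zero] at hS
    subst hS
    exact ⟨fun _ => 1, fun e he => by simp at he, fun p => by simp⟩
  | succ n ih =>
    intro S t h hS H
    obtain ⟨e₀, he₀⟩ := Finset.card_pos.mp (show 0 < S.card by omega)
    by_cases hloop : t e₀ = h e₀
    · obtain ⟨f, hf, hf'⟩ := ih (S.erase e₀) t h (by rw [Finset.card_erase_of_mem he₀]; omega)
        (by
          intro p
          have h1 := H p
          rw [← Finset.add_sum_erase _ _ he₀, hloop, CharTwo.add_self_eq_zero, zero_add] at h1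
          exact h1)
      refine ⟨Function.update f e₀ 1, ?_, ?_⟩
      · intro e he
        by_cases hee : e = e₀
        · subst hee; simp
        · rw [Function.update_of_ne hee]
          exact hf e (Finset.mem_erase.mpr ⟨hee, he⟩)
      · intro p
        rw [← Finset.add_sum_erase _ _ he₀, hloop, sub_self, mul_zero, zero_add]
        rw [← hf' p]
        apply Finset.sum_congr rfl
        intro e he
        rw [Function.update_of_ne (Finset.ne_of_mem_erase he)]
    · -- another edge at the tail of `e₀`
      have hex : ∃ e₁ ∈ S, e₁ ≠ e₀ ∧ (t e₁ = t e₀ ∨ h e₁ = t e₀) := by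
        by_contra hcon
        push Not at hcon
        have h1 := H (fun w => if w = t e₀ then 1 else 0)
        rw [← Finset.add_sum_erase _ _ he₀] at h1
        rw [Finset.sum_eq_zero (s := S.erase e₀)] at h1
        · simp only [if_true, Ne.symm hloop, if_false, add_zero] at h1
          exact one_ne_zero h1
        · intro e he
          rw [Finset.mem_erase] at he
          obtain ⟨n1, n2⟩ := hcon e he.2 he.1
          simp [n1, n2]
      obtain ⟨e₁, he₁, hne, hinc⟩ := hex
      have hS' : (S.erase e₁).card = n := by rw [Finset.card_erase_of_mem he₁]; omega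
      have he₀' : e₀ ∈ S.erase e₁ := Finset.mem_erase.mpr ⟨Ne.symm hne, he₀⟩
      obtain ⟨w, σ, hσ, hp2, hpZ⟩ : ∃ (w : V) (σ : ℤ), (σ = 1 ∨ σ = -1) ∧
          (∀ p : V → ZMod 2, p (t e₁) + p (h e₁) = p (t e₀) + p w) ∧
          (∀ p : V → ℤ, σ * (p (t e₁) - p (h e₁)) = p w - p (t e₀)) := by
        rcases hinc with h1 | h1
        · refine ⟨h e₁, -1, Or.inr rfl, fun p => by rw [h1], fun p => by rw [h1]; ring⟩
        · refine ⟨t e₁, 1, Or.inl rfl, fun p => by rw [h1, add_comm], fun p => by rw [h1]; ring⟩
      obtain ⟨f, hf, hf'⟩ := ih (S.erase e₁) (Function.update t e₀ w) h hS' (by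
        intro p
        have h1 := H p
        rw [← Finset.add_sum_erase _ _ he₁, ← Finset.add_sum_erase _ _ he₀', hp2] at h1
        rw [← Finset.add_sum_erase _ _ he₀', Function.update_self]
        have h2 : ∑ e ∈ (S.erase e₁).erase e₀, (p (Function.update t e₀ w e) + p (h e)) =
            ∑ e ∈ (S.erase e₁).erase e₀, (p (t e) + p (h e)) := by
          apply Finset.sum_congr rfl
          intro e he
          rw [Function.update_of_ne (Finset.ne_of_mem_erase he)]
        rw [h2, ← h1]
        have h3 := CharTwo.add_self_eq_zero (p (t e₀))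
        linear_combination -h3)
      refine ⟨Function.update f e₁ (σ * f e₀), ?_, ?_⟩
      · intro e he
        by_cases hee : e = e₁
        · subst hee
          rw [Function.update_self]
          rcases hf e₀ he₀' with h1 | h1 <;> rcases hσ with h2 | h2 <;> simp [h1, h2]
        · rw [Function.update_of_ne hee]
          exact hf e (Finset.mem_erase.mpr ⟨hee, he⟩)
      · intro p
        have h1 := hf' p
        rw [← Finset.add_sum_erase _ _ he₀', Function.update_self] at h1
        rw [← Finset.add_sum_erase _ _ he₁, ← Finset.add_sum_erase _ _ he₀',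
          Function.update_self, Function.update_of_ne (Ne.symm hne)]
        have h2 : ∑ e ∈ (S.erase e₁).erase e₀,
            Function.update f e₁ (σ * f e₀) e * (p (t e) - p (h e)) =
            ∑ e ∈ (S.erase e₁).erase e₀, f e * (p (Function.update t e₀ w e) - p (h e)) := by
          apply Finset.sum_congr rfl
          intro e he
          rw [Finset.mem_erase, Finset.mem_erase] at he
          rw [Function.update_of_ne he.1, Function.update_of_ne he.2.1]
        rw [h2]
        have h3 := hpZ p
        linear_combination h1 + f e₀ * h3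

variable [Fintype V] [Fintype E]

/-- Every even subgraph carries a flow with values `1` and `-1`. -/
theorem euler (t h : E → V) (x : E → ZMod 2) (hx : ∀ v, bd t h x v = 0) :
    ∃ f : E → ℤ, (∀ e, x e = 0 → f e = 0) ∧ (∀ e, x e ≠ 0 → f e = 1 ∨ f e = -1) ∧
      ∀ v, bd t h f v = 0 := by
  have two : ∀ z : ZMod 2, z ≠ 0 → z = 1 := by decide
  obtain ⟨f, hf, hf'⟩ := euler_aux (Finset.univ.filter (fun e => x e ≠ 0)).card
    (Finset.univ.filter (fun e => x e ≠ 0)) t h rfl (by
      intro p
      have h1 := sum_bd t h x p
      simp only [hx, mul_zero, Finset.sum_const_zero] at h1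
      rw [Finset.sum_filter]
      refine Eq.trans ?_ h1.symm
      apply Finset.sum_congr rfl
      intro e _
      by_cases he : x e = 0
      · simp [he]
      · rw [if_pos he, two _ he, mul_one, CharTwo.sub_eq_add])
  refine ⟨fun e => if x e = 0 then 0 else f e, ?_, ?_, ?_⟩
  · intro e he; simp [he]
  · intro e he
    simp only [he, if_false]
    exact hf e (by simpa using he)
  · intro v
    apply bd_eq_zero_of_test
    intro p
    refine Eq.trans ?_ (hf' p)
    rw [Finset.sum_filter]
    apply Finset.sum_congr rfl
    intro e _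
    by_cases he : x e = 0
    · simp [he]
    · simp only [he, if_false, ne_eq, not_false_eq_true, if_true]
      ring

/-- Two even subgraphs covering all edges give a flow with values of size 1, 2 and 3. -/
theorem four_of_pair (t h : E → V) (x y : E → ZMod 2) (hx : ∀ v, bd t h x v = 0)
    (hy : ∀ v, bd t h y v = 0) (hxy : ∀ e, x e ≠ 0 ∨ y e ≠ 0) :
    ∃ f : E → ℤ, (∀ e, 0 < |f e| ∧ |f e| < 4) ∧ ∀ v, bd t h f v = 0 := by
  obtain ⟨f, f0, f1, f2⟩ := euler t h x hx
  obtain ⟨g, g0, g1, g2⟩ := euler t h y hy
  refine ⟨fun e => f e + (g e + g e), ?_, ?_⟩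
  · intro e
    by_cases hxe : x e = 0
    · have hye : y e ≠ 0 := by
        rcases hxy e with h' | h'
        · exact absurd hxe h'
        · exact h'
      have h1 := f0 e hxe
      rcases g1 e hye with h2 | h2 <;> simp [h1, h2]
    · by_cases hye : y e = 0
      · have h2 := g0 e hye
        rcases f1 e hxe with h1 | h1 <;> simp [h1, h2]
      · rcases f1 e hxe with h1 | h1 <;> rcases g1 e hye with h2 | h2 <;> simp [h1, h2]
  · intro v
    rw [bd_add, bd_add, f2, g2]
    simp

/-- Existence of joins. -/
theorem tjoin (t h : E → V) (F : E → Prop) (τ : V → ZMod 2)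
    (H : ∀ p : V → ZMod 2, (∀ e, F e → p (t e) = p (h e)) → ∑ v, p v * τ v = 0) :
    ∃ J : E → ZMod 2, (∀ e, ¬ F e → J e = 0) ∧ ∀ v, bd t h J v = τ v := by
  classical
  let D : (E → ZMod 2) →ₗ[ZMod 2] (V → ZMod 2) :=
    { toFun := fun x v => bd t h (fun e => if F e then x e else 0) v
      map_add' := by
        intro x y
        funext v
        simp only [Pi.add_apply]
        rw [← bd_add]
        congr 1
        funext e
        split_ifs <;> simp
      map_smul' := by
        intro c x
        funext v
        simp only [Pi.smul_apply, smul_eq_mul, RingHom.id_apply, bd, Finset.mul_sum]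
        apply Finset.sum_congr rfl
        intro e _
        split_ifs <;> ring }
  by_cases hτ : τ ∈ LinearMap.range D
  · obtain ⟨x, hx⟩ := hτ
    refine ⟨fun e => if F e then x e else 0, fun e he => by simp [he], fun v => ?_⟩
    exact congrFun hx v
  · exfalso
    obtain ⟨f, hf1, hf2⟩ := Submodule.exists_le_ker_of_notMem hτ
    have hfy : ∀ y : V → ZMod 2, f y = ∑ v, f (Pi.single v 1) * y v := by
      intro y
      rw [LinearMap.pi_apply_eq_sum_univ f y]
      apply Finset.sum_congr rfl
      intro v _
      rw [smul_eq_mul, mul_comm]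
      congr 2
      funext w
      rw [Pi.single_apply]
      simp only [eq_comm]
    apply hf1
    rw [hfy]
    apply H
    intro e he
    have h1 : f (D (Pi.single e 1)) = 0 := by
      have : D (Pi.single e 1) ∈ LinearMap.range D := ⟨_, rfl⟩
      exact hf2 this
    rw [hfy] at h1
    have h2 := sum_bd t h (fun e' => if F e' then (Pi.single e (1 : ZMod 2) : E → ZMod 2) e'
      else 0) (fun v => f (Pi.single v 1))
    have h3 : ∑ v, f (Pi.single v 1) * D (Pi.single e 1) v =
        ∑ v, f (Pi.single v 1) * bd t h (fun e' => if F e' then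
          (Pi.single e (1 : ZMod 2) : E → ZMod 2) e' else 0) v := rfl
    rw [h3, h2, Finset.sum_eq_single e] at h1
    · simp only [he, if_true, Pi.single_eq_same, mul_one] at h1
      exact sub_eq_zero.mp h1
    · intro e' _ hne
      simp [Pi.single_eq_of_ne hne]
    · intro h'; exact absurd (Finset.mem_univ _) h'

end Pool.Agent.Lib.MP_12428a_co
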