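import Mathlib
import Pool.Agent.Lib.MP_12428a_co.Euler

/-!
The lattice of balanced vectors of a unit vector flow and its reduction modulo 2.
-/

set_option autoImplicit false
set_option linter.unusedSectionVars false

namespace Pool.Agent.Lib.MP_12428a_co

variable {V E ι : Type*} [Fintype V] [Fintype E] [Fintype ι]
  [DecidableEq V] [DecidableEq E] [DecidableEq ι]

/-- Net outflow of the edges of colour `i` at `v`. -/
def eps (t h : E → V) (col : E → ι) (v : V) (i : ι) : ℤ :=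
  bd t h (fun e => if col e = i then (1 : ℤ) else 0) v

lemma bd_col {A : Type*} [AddCommGroup A] (t h : E → V) (col : E → ι) (g : ι → A) (v : V) :
    bd t h (fun e => g (col e)) v = ∑ i, eps t h col v i • g i := by
  simp only [eps, bd, Finset.sum_smul]
  rw [Finset.sum_comm]
  apply Finset.sum_congr rfl
  intro e _
  rw [Finset.sum_eq_single (col e)]
  · by_cases h1 : t e = v <;> by_cases h2 : h e = v <;> simp [h1, h2]
  · intro i _ hi
    simp [Ne.symm hi]
  · intro h'; exact absurd (Finset.mem_univ _) h'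

/-- The data of a unit vector flow whose balanced vectors span a space of dimension at most 2. -/
structure Data (t h : E → V) (col : E → ι) {X : Type*} [NormedAddCommGroup X] [NormedSpace ℝ X]
    (vec : ι → X) (S : Submodule ℚ (ι → ℚ)) : Prop where
  inj : Function.Injective vec
  unit : ∀ i, ‖vec i‖ = 1
  rank : Module.finrank ℚ S ≤ 2
  eps_mem : ∀ v, (fun i => (eps t h col v i : ℚ)) ∈ S
  rel : ∀ m ∈ S, ∑ i, (m i : ℝ) • vec i = 0

/-- Reductions modulo 2 of the integer points of `S`. -/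
def InM (S : Submodule ℚ (ι → ℚ)) (x : ι → ZMod 2) : Prop :=
  ∃ m : ι → ℤ, (fun i => (m i : ℚ)) ∈ S ∧ ∀ i, ((m i : ℤ) : ZMod 2) = x i

lemma InM.zero (S : Submodule ℚ (ι → ℚ)) : InM S 0 := by
  refine ⟨0, ?_, fun i => by simp⟩
  have : (fun i : ι => (((0 : ι → ℤ) i : ℤ) : ℚ)) = 0 := by funext i; simp
  rw [this]; exact S.zero_mem

lemma InM.add {S : Submodule ℚ (ι → ℚ)} {x y : ι → ZMod 2} (hx : InM S x) (hy : InM S y) :
    InM S (x + y) := by
  obtain ⟨m, hm, hm'⟩ := hx
  obtain ⟨n, hn, hn'⟩ := hy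
  refine ⟨m + n, ?_, fun i => by simp [hm', hn']⟩
  have : (fun i : ι => (((m + n) i : ℤ) : ℚ)) = (fun i => (m i : ℚ)) + fun i => (n i : ℚ) := by
    funext i; simp
  rw [this]; exact S.add_mem hm hn

/-- Linear dependence over the integers of three integer points. -/
lemma int_rel {S : Submodule ℚ (ι → ℚ)} (hS : Module.finrank ℚ S ≤ 2) {m₁ m₂ m₃ : ι → ℤ}
    (h₁ : (fun i => (m₁ i : ℚ)) ∈ S) (h₂ : (fun i => (m₂ i : ℚ)) ∈ S)
    (h₃ : (fun i => (m₃ i : ℚ)) ∈ S) :
    ∃ a b c : ℤ, (a ≠ 0 ∨ b ≠ 0 ∨ c ≠ 0) ∧ ∀ i, a * m₁ i + b * m₂ i + c * m₃ i = 0 := by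
  let v : Fin 3 → S := ![⟨_, h₁⟩, ⟨_, h₂⟩, ⟨_, h₃⟩]
  have hnot : ¬ LinearIndependent ℚ v := by
    intro hli
    have := hli.fintype_card_le_finrank
    simp only [Fintype.card_fin] at this
    omega
  rw [← LinearIndependent.iff_fractionRing ℤ ℚ] at hnot
  rw [Fintype.not_linearIndependent_iff] at hnot
  obtain ⟨g, hg, i₀, hi₀⟩ := hnot
  refine ⟨g 0, g 1, g 2, ?_, ?_⟩
  · by_contra hcon
    push Not at hcon
    apply hi₀
    fin_cases i₀
    · exact hcon.1
    · exact hcon.2.1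
    · exact hcon.2.2
  · intro i
    have h1 := congrArg (fun s : S => (s : ι → ℚ) i) hg
    simp only [Fin.sum_univ_three, v, Matrix.cons_val_zero, Matrix.cons_val_one, Matrix.cons_val,
      Submodule.coe_add, Pi.add_apply, Submodule.coe_zero, Pi.zero_apply] at h1
    have h2 : ∀ (n : ℤ) (s : S), ((n • s : S) : ι → ℚ) i = (n : ℚ) * (s : ι → ℚ) i := by
      intro n s
      rw [Submodule.coe_smul_of_tower, Pi.smul_apply, zsmul_eq_mul]
    rw [h2, h2, h2] at h1
    have h3 : (g 0 : ℚ) * (m₁ i : ℚ) + (g 1 : ℚ) * (m₂ i : ℚ) + (g 2 : ℚ) * (m₃ i : ℚ) = 0 := h1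
    exact_mod_cast h3

/-- A relation with not all coefficients even. -/
lemma odd_rel (n : ℕ) : ∀ (m₁ m₂ m₃ : ι → ℤ) (a b c : ℤ), a.natAbs + b.natAbs + c.natAbs ≤ n →
    (a ≠ 0 ∨ b ≠ 0 ∨ c ≠ 0) → (∀ i, a * m₁ i + b * m₂ i + c * m₃ i = 0) →
    ∃ a b c : ZMod 2, (a ≠ 0 ∨ b ≠ 0 ∨ c ≠ 0) ∧
      ∀ i, a * (m₁ i : ZMod 2) + b * (m₂ i : ZMod 2) + c * (m₃ i : ZMod 2) = 0 := by
  induction n with
  | zero =>
    intro m₁ m₂ m₃ a b c hn h0 _
    exfalso
    omega
  | succ n ih =>
    intro m₁ m₂ m₃ a b c hn h0 hrel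
    by_cases hev : (a : ZMod 2) ≠ 0 ∨ (b : ZMod 2) ≠ 0 ∨ (c : ZMod 2) ≠ 0
    · refine ⟨a, b, c, hev, fun i => ?_⟩
      have := congrArg (fun z : ℤ => (z : ZMod 2)) (hrel i)
      simpa using this
    · push Not at hev
      have e1 : (2 : ℤ) ∣ a := (ZMod.intCast_zmod_eq_zero_iff_dvd a 2).mp hev.1
      have e2 : (2 : ℤ) ∣ b := (ZMod.intCast_zmod_eq_zero_iff_dvd b 2).mp hev.2.1
      have e3 : (2 : ℤ) ∣ c := (ZMod.intCast_zmod_eq_zero_iff_dvd c 2).mp hev.2.2
      obtain ⟨a', rfl⟩ := e1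
      obtain ⟨b', rfl⟩ := e2
      obtain ⟨c', rfl⟩ := e3
      refine ih m₁ m₂ m₃ a' b' c' (by omega) (by omega) ?_
      intro i
      have := hrel i
      have h2 : (2 : ℤ) * (a' * m₁ i + b' * m₂ i + c' * m₃ i) = 0 := by
        rw [← this]; ring
      simpa using h2

lemma InM.dep {S : Submodule ℚ (ι → ℚ)} (hS : Module.finrank ℚ S ≤ 2) {x y z : ι → ZMod 2}
    (hx : InM S x) (hy : InM S y) (hz : InM S z) :
    ∃ a b c : ZMod 2, (a ≠ 0 ∨ b ≠ 0 ∨ c ≠ 0) ∧ ∀ i, a * x i + b * y i + c * z i = 0 := by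
  obtain ⟨m₁, h₁, h₁'⟩ := hx
  obtain ⟨m₂, h₂, h₂'⟩ := hy
  obtain ⟨m₃, h₃, h₃'⟩ := hz
  obtain ⟨a, b, c, h0, hrel⟩ := int_rel hS h₁ h₂ h₃
  obtain ⟨a', b', c', h0', hrel'⟩ := odd_rel _ m₁ m₂ m₃ a b c le_rfl h0 hrel
  refine ⟨a', b', c', h0', fun i => ?_⟩
  rw [← h₁', ← h₂', ← h₃']
  exact hrel' i

lemma zmod2_cases (a : ZMod 2) : a = 0 ∨ a = 1 := by
  revert a; decide

/-- `M` has at most four elements. -/
lemma exists_two {S : Submodule ℚ (ι → ℚ)} (hS : Module.finrank ℚ S ≤ 2) :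
    ∃ p q, InM S p ∧ InM S q ∧ ∀ x, InM S x →
      ∃ a b : ZMod 2, ∀ i, x i = a * p i + b * q i := by
  by_cases h1 : ∃ p, InM S p ∧ p ≠ 0
  · obtain ⟨p, hp, hp0⟩ := h1
    by_cases h2 : ∃ q, InM S q ∧ q ≠ 0 ∧ q ≠ p
    · obtain ⟨q, hq, hq0, hqp⟩ := h2
      refine ⟨p, q, hp, hq, fun x hx => ?_⟩
      obtain ⟨a, b, c, h0, hrel⟩ := InM.dep hS hp hq hx
      rcases zmod2_cases c with rfl | rfl
      · exfalso
        rcases zmod2_cases a with rfl | rfl <;> rcases zmod2_cases b with rfl | rfl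
        · simp at h0
        · apply hq0; funext i
          have := hrel i
          simpa using this
        · apply hp0; funext i
          have := hrel i
          simpa using this
        · apply hqp; funext i
          have := hrel i
          simp only [one_mul, zero_mul, add_zero] at this
          rw [← CharTwo.sub_eq_add, sub_eq_zero] at this
          exact this.symm
      · refine ⟨a, b, fun i => ?_⟩
        have := hrel i
        rw [one_mul, ← CharTwo.sub_eq_add, sub_eq_zero] at this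
        exact this.symm
    · push Not at h2
      refine ⟨p, 0, hp, InM.zero S, fun x hx => ?_⟩
      by_cases hx0 : x = 0
      · exact ⟨0, 0, fun i => by simp [hx0]⟩
      · exact ⟨1, 0, fun i => by simp [h2 x hx hx0]⟩
  · push Not at h1
    exact ⟨0, 0, InM.zero S, InM.zero S, fun x hx => ⟨0, 0, fun i => by simp [h1 x hx]⟩⟩

section data
variable {t h : E → V} {col : E → ι} {X : Type*} [NormedAddCommGroup X] [NormedSpace ℝ X]
  {vec : ι → X} {S : Submodule ℚ (ι → ℚ)}

/-- Joins inside unions of colour classes. -/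
lemma Data.join (hD : Data t h col vec S) (j : ι) (I : ι → Prop)
    (H : ∀ m ∈ S, (∀ i, I i → m i = 0) → m j = 0) :
    ∃ J : E → ZMod 2, (∀ e, ¬ I (col e) → J e = 0) ∧
      ∀ v, bd t h J v = ((eps t h col v j : ℤ) : ZMod 2) := by
  refine tjoin t h (fun e => I (col e)) (fun v => ((eps t h col v j : ℤ) : ZMod 2)) ?_
  intro p hp
  let P : V → ℤ := fun v => if p v = 0 then 0 else 1
  have hP : ∀ v, ((P v : ℤ) : ZMod 2) = p v := by
    intro v
    rcases zmod2_cases (p v) with h1 | h1 <;> simp [P, h1]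
  let m : ι → ℤ := fun i => ∑ v, P v * eps t h col v i
  have hm : (fun i => (m i : ℚ)) ∈ S := by
    have : (fun i => (m i : ℚ)) = ∑ v, (P v : ℚ) • (fun i => (eps t h col v i : ℚ)) := by
      funext i
      simp [m, Finset.sum_apply]
    rw [this]
    exact S.sum_mem fun v _ => S.smul_mem _ (hD.eps_mem v)
  have h1 := H _ hm (by
    intro i hi
    have : m i = 0 := by
      simp only [m, eps]
      rw [sum_bd]
      apply Finset.sum_eq_zero
      intro e _
      by_cases hc : col e = i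
      · subst hc
        have := hp e hi
        simp [P, this]
      · simp [hc]
    simp [this])
  have h2 : m j = 0 := by exact_mod_cast h1
  have h3 := congrArg (fun z : ℤ => (z : ZMod 2)) h2
  simp only [m, Int.cast_sum, Int.cast_mul, hP, Int.cast_zero] at h3
  exact h3

lemma Data.inM (hD : Data t h col vec S) (v : V) :
    InM S (fun i => ((eps t h col v i : ℤ) : ZMod 2)) :=
  ⟨eps t h col v, hD.eps_mem v, fun _ => rfl⟩

lemma Data.vec_ne (hD : Data t h col vec S) (i : ι) : vec i ≠ 0 := by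
  intro h0
  have := hD.unit i
  rw [h0, norm_zero] at this
  exact zero_ne_one this

/-- Two unit vectors that are neither equal nor opposite are independent. -/
lemma indep_of_unit {v w : X} (hv : ‖v‖ = 1) (hw : ‖w‖ = 1) (h1 : v ≠ w) (h2 : w ≠ -v)
    {α β : ℝ} (hrel : α • v + β • w = 0) : α = 0 := by
  by_contra hα
  have h3 : α • v = -(β • w) := eq_neg_of_add_eq_zero_left hrel
  have h4 : |α| = |β| := by
    have := congrArg norm h3
    rwa [norm_neg, norm_smul, norm_smul, hv, hw, mul_one, mul_one, Real.norm_eq_abs,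
      Real.norm_eq_abs] at this
  rcases abs_eq_abs.mp h4 with h5 | h5
  · subst h5
    rw [← smul_add, smul_eq_zero] at hrel
    rcases hrel with h6 | h6
    · exact hα h6
    · exact h2 (eq_neg_of_add_eq_zero_right h6)
  · have h6 : β = -α := by rw [h5, neg_neg]
    rw [h6, neg_smul, ← sub_eq_add_neg, ← smul_sub, smul_eq_zero, sub_eq_zero] at hrel
    rcases hrel with h7 | h7
    · exact hα h7
    · exact h1 h7

end data

end Pool.Agent.Lib.MP_12428a_co
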