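import Mathlib
import Pool.Agent.Lib.MP_12428a_co.Lin

/-!
Two even subgraphs covering all edges, by cases.
-/

set_option autoImplicit false
set_option linter.unusedSectionVars false

namespace Pool.Agent.Lib.MP_12428a_co

variable {V E ι : Type*} [Fintype V] [Fintype E] [Fintype ι]
  [DecidableEq V] [DecidableEq E] [DecidableEq ι]

/-- Nonzero values in the Klein group with prescribed sum. -/
lemma exists_sum (A : Finset ι) : ∀ τ : ZMod 2 × ZMod 2, (A.card = 0 → τ = 0) →
    (A.card = 1 → τ ≠ 0) →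
    ∃ g : ι → ZMod 2 × ZMod 2, (∀ i, g i ≠ 0) ∧ ∑ i ∈ A, g i = τ := by
  have hne : ∀ τ : ZMod 2 × ZMod 2, ∃ a : ZMod 2 × ZMod 2, a ≠ 0 ∧ a ≠ τ := by decide
  induction A using Finset.induction_on with
  | empty =>
    intro τ h0 _
    have h10 : ((1, 0) : ZMod 2 × ZMod 2) ≠ 0 := by decide
    exact ⟨fun _ => (1, 0), fun _ => h10, by rw [h0 rfl]; simp⟩
  | @insert i A hi ih =>
    intro τ _ h1
    rw [Finset.card_insert_of_notMem hi] at h1
    obtain ⟨a, ha, τ', h0', h1', hτ⟩ : ∃ a : ZMod 2 × ZMod 2, a ≠ 0 ∧ ∃ τ' : ZMod 2 × ZMod 2,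
        (A.card = 0 → τ' = 0) ∧ (A.card = 1 → τ' ≠ 0) ∧ a + τ' = τ := by
      by_cases hA0 : A.card = 0
      · refine ⟨τ, h1 (by omega), 0, fun _ => rfl, fun h => by omega, add_zero _⟩
      · obtain ⟨a, ha, haτ⟩ := hne τ
        refine ⟨a, ha, τ - a, fun h => absurd h hA0, fun _ h => haτ (sub_eq_zero.mp h).symm, ?_⟩
        abel
    obtain ⟨g, hg, hg'⟩ := ih τ' h0' h1'
    refine ⟨Function.update g i a, ?_, ?_⟩
    · intro k
      by_cases hk : k = i
      · subst hk; rwa [Function.update_self]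
      · rw [Function.update_of_ne hk]; exact hg k
    · rw [Finset.sum_insert hi, Function.update_self, ← hτ, ← hg']
      congr 1
      apply Finset.sum_congr rfl
      intro k hk
      rw [Function.update_of_ne (fun e => hi (by rw [← e]; exact hk))]

/-- Values constant on colours when no vector of `M` has weight one. -/
lemma exists_const (p q : ι → ZMod 2) (hp : ∀ j, p ≠ Pi.single j 1) (hq : ∀ j, q ≠ Pi.single j 1)
    (hpq : ∀ j, p + q ≠ Pi.single j 1) :
    ∃ g : ι → ZMod 2 × ZMod 2, (∀ i, g i ≠ 0) ∧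
      (∑ i, ((p i * (g i).1, p i * (g i).2) : ZMod 2 × ZMod 2) = 0) ∧
      (∑ i, ((q i * (g i).1, q i * (g i).2) : ZMod 2 × ZMod 2) = 0) := by
  set A := Finset.univ.filter (fun i => p i = 1 ∧ q i = 0) with hA
  set B := Finset.univ.filter (fun i => p i = 0 ∧ q i = 1) with hB
  set D := Finset.univ.filter (fun i => p i = 1 ∧ q i = 1) with hD
  -- no vector of weight one
  have key : ∀ r : ι → ZMod 2, (∀ j, r ≠ Pi.single j 1) →
      (Finset.univ.filter (fun i => r i = 1)).card ≠ 1 := by
    intro r hr hcard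
    obtain ⟨j, hj⟩ := Finset.card_eq_one.mp hcard
    apply hr j
    funext i
    by_cases hij : i = j
    · subst hij
      rw [Pi.single_eq_same]
      have : i ∈ Finset.univ.filter (fun i => r i = 1) := by rw [hj]; simp
      simpa using this
    · rw [Pi.single_eq_of_ne hij]
      rcases zmod2_cases (r i) with h | h
      · exact h
      · exfalso
        have : i ∈ Finset.univ.filter (fun i => r i = 1) := by simpa using h
        rw [hj] at this
        exact hij (by simpa using this)
  have k1 : A.card + D.card ≠ 1 := by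
    rw [← Finset.card_union_of_disjoint]
    · convert key p hp using 2
      ext i
      simp only [hA, hD, Finset.mem_union, Finset.mem_filter, Finset.mem_univ, true_and]
      rcases zmod2_cases (q i) with h | h <;> simp [h]
    · rw [Finset.disjoint_left]
      intro i h1 h2
      simp only [hA, hD, Finset.mem_filter, Finset.mem_univ, true_and] at h1 h2
      rw [h1.2] at h2
      exact zero_ne_one h2.2
  have k2 : B.card + D.card ≠ 1 := by
    rw [← Finset.card_union_of_disjoint]
    · convert key q hq using 2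
      ext i
      simp only [hB, hD, Finset.mem_union, Finset.mem_filter, Finset.mem_univ, true_and]
      rcases zmod2_cases (p i) with h | h <;> simp [h]
    · rw [Finset.disjoint_left]
      intro i h1 h2
      simp only [hB, hD, Finset.mem_filter, Finset.mem_univ, true_and] at h1 h2
      rw [h1.1] at h2
      exact zero_ne_one h2.1
  have k3 : A.card + B.card ≠ 1 := by
    rw [← Finset.card_union_of_disjoint]
    · convert key (p + q) hpq using 2
      ext i
      simp only [hA, hB, Finset.mem_union, Finset.mem_filter, Finset.mem_univ, true_and,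
        Pi.add_apply]
      rcases zmod2_cases (p i) with h | h <;> rcases zmod2_cases (q i) with h' | h' <;>
        simp [h, h', CharTwo.add_self_eq_zero]
    · rw [Finset.disjoint_left]
      intro i h1 h2
      simp only [hA, hB, Finset.mem_filter, Finset.mem_univ, true_and] at h1 h2
      rw [h1.1] at h2
      exact one_ne_zero h2.1
  obtain ⟨τ, a0, a1, b0, b1, d0, d1⟩ : ∃ τ : ZMod 2 × ZMod 2, (A.card = 0 → τ = 0) ∧
      (A.card = 1 → τ ≠ 0) ∧ (B.card = 0 → τ = 0) ∧ (B.card = 1 → τ ≠ 0) ∧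
      (D.card = 0 → τ = 0) ∧ (D.card = 1 → τ ≠ 0) := by
    by_cases hall : A.card = 0 ∨ B.card = 0 ∨ D.card = 0
    · refine ⟨0, fun _ => rfl, ?_, fun _ => rfl, ?_, fun _ => rfl, ?_⟩
      · intro h; exfalso; omega
      · intro h; exfalso; omega
      · intro h; exfalso; omega
    · push Not at hall
      refine ⟨(1, 0), fun h => absurd h hall.1, fun _ => by decide,
        fun h => absurd h hall.2.1, fun _ => by decide, fun h => absurd h hall.2.2,
        fun _ => by decide⟩
  obtain ⟨gA, gA0, gA1⟩ := exists_sum A τ a0 a1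
  obtain ⟨gB, gB0, gB1⟩ := exists_sum B τ b0 b1
  obtain ⟨gD, gD0, gD1⟩ := exists_sum D τ d0 d1
  have hττ : τ + τ = 0 := by
    have : ∀ τ : ZMod 2 × ZMod 2, τ + τ = 0 := by decide
    exact this τ
  let g : ι → ZMod 2 × ZMod 2 := fun i => if p i = 1 then (if q i = 1 then gD i else gA i)
    else gB i
  refine ⟨g, ?_, ?_, ?_⟩
  · intro i
    simp only [g]
    split_ifs
    · exact gD0 i
    · exact gA0 i
    · exact gB0 i
  · have : ∀ i, ((p i * (g i).1, p i * (g i).2) : ZMod 2 × ZMod 2) =
        (if p i = 1 ∧ q i = 0 then gA i else 0) + (if p i = 1 ∧ q i = 1 then gD i else 0) := by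
      intro i
      rcases zmod2_cases (p i) with h | h <;> rcases zmod2_cases (q i) with h' | h' <;>
        simp [g, h, h']
    simp only [this]
    rw [Finset.sum_add_distrib, ← Finset.sum_filter, ← Finset.sum_filter, ← hA, ← hD, gA1, gD1,
      hττ]
  · have : ∀ i, ((q i * (g i).1, q i * (g i).2) : ZMod 2 × ZMod 2) =
        (if p i = 0 ∧ q i = 1 then gB i else 0) + (if p i = 1 ∧ q i = 1 then gD i else 0) := by
      intro i
      rcases zmod2_cases (p i) with h | h <;> rcases zmod2_cases (q i) with h' | h' <;>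
        simp [g, h, h']
    simp only [this]
    rw [Finset.sum_add_distrib, ← Finset.sum_filter, ← Finset.sum_filter, ← hB, ← hD, gB1, gD1,
      hττ]

variable {t h : E → V} {col : E → ι} {X : Type*} [NormedAddCommGroup X] [NormedSpace ℝ X]
  {vec : ι → X} {S : Submodule ℚ (ι → ℚ)}

/-- The conclusion: two even subgraphs covering all edges. -/
def Two (t h : E → V) : Prop :=
  ∃ x y : E → ZMod 2, (∀ v, bd t h x v = 0) ∧ (∀ v, bd t h y v = 0) ∧ ∀ e, x e ≠ 0 ∨ y e ≠ 0

lemma bd_col2 (g : ι → ZMod 2) (v : V) :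
    bd t h (fun e => g (col e)) v = ∑ i, ((eps t h col v i : ℤ) : ZMod 2) * g i := by
  rw [bd_col]
  apply Finset.sum_congr rfl
  intro i _
  rw [zsmul_eq_mul]

/-- Case 1: no vector of weight one. -/
lemma Data.case1 (hD : Data t h col vec S) (hno : ∀ j, ¬ InM S (Pi.single j 1)) : Two t h := by
  obtain ⟨p, q, hp, hq, hpq⟩ := exists_two hD.rank
  obtain ⟨g, g0, g1, g2⟩ := exists_const p q (fun j e => hno j (e ▸ hp))
    (fun j e => hno j (e ▸ hq)) (fun j e => hno j (e ▸ hp.add hq))
  rw [Prod.ext_iff] at g1 g2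
  simp only [Prod.fst_sum, Prod.snd_sum, Prod.fst_zero, Prod.snd_zero] at g1 g2
  refine ⟨fun e => (g (col e)).1, fun e => (g (col e)).2, ?_, ?_, ?_⟩
  · intro v
    rw [bd_col2 (fun i => (g i).1)]
    obtain ⟨a, b, hab⟩ := hpq _ (hD.inM v)
    have : ∀ i, ((eps t h col v i : ℤ) : ZMod 2) * (g i).1 =
        a * (p i * (g i).1) + b * (q i * (g i).1) := by
      intro i
      rw [hab i]; ring
    simp only [this]
    rw [Finset.sum_add_distrib, ← Finset.mul_sum, ← Finset.mul_sum, g1.1, g2.1]
    simp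
  · intro v
    rw [bd_col2 (fun i => (g i).2)]
    obtain ⟨a, b, hab⟩ := hpq _ (hD.inM v)
    have : ∀ i, ((eps t h col v i : ℤ) : ZMod 2) * (g i).2 =
        a * (p i * (g i).2) + b * (q i * (g i).2) := by
      intro i
      rw [hab i]; ring
    simp only [this]
    rw [Finset.sum_add_distrib, ← Finset.mul_sum, ← Finset.mul_sum, g1.2, g2.2]
    simp
  · intro e
    by_contra hcon
    push Not at hcon
    exact g0 (col e) (Prod.ext hcon.1 hcon.2)

/-- Case 2: the structure of `M` when it contains a vector of weight one. -/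
lemma Data.exists_q (hD : Data t h col vec S) {j : ι} (hj : InM S (Pi.single j 1)) :
    ∃ q : ι → ZMod 2, InM S q ∧ q j = 0 ∧ ∀ x, InM S x → ∃ s : ZMod 2, ∀ i, i ≠ j →
      x i = s * q i := by
  have hr : ∀ x, InM S x → ∃ r, InM S r ∧ r j = 0 ∧ ∀ i, i ≠ j → r i = x i := by
    intro x hx
    rcases zmod2_cases (x j) with h0 | h0
    · exact ⟨x, hx, h0, fun _ _ => rfl⟩
    · refine ⟨x + Pi.single j 1, hx.add hj, ?_, ?_⟩
      · rw [Pi.add_apply, Pi.single_eq_same, h0, CharTwo.add_self_eq_zero]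
      · intro i hi
        rw [Pi.add_apply, Pi.single_eq_of_ne hi, add_zero]
  by_cases hq : ∃ q, InM S q ∧ q j = 0 ∧ q ≠ 0
  · obtain ⟨q, hq, hqj, hq0⟩ := hq
    refine ⟨q, hq, hqj, fun x hx => ?_⟩
    obtain ⟨r, hrM, hrj, hrx⟩ := hr x hx
    obtain ⟨a, b, c, h0, hrel⟩ := InM.dep hD.rank hj hq hrM
    have ha : a = 0 := by
      have := hrel j
      rw [Pi.single_eq_same, hqj, hrj] at this
      simpa using this
    subst ha
    rcases zmod2_cases c with rfl | rfl
    · exfalso
      rcases zmod2_cases b with rfl | rfl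
      · simp at h0
      · apply hq0
        funext i
        have := hrel i
        simpa using this
    · refine ⟨b, fun i hi => ?_⟩
      rw [← hrx i hi]
      have := hrel i
      rw [zero_mul, zero_add, one_mul, ← CharTwo.sub_eq_add, sub_eq_zero] at this
      exact this.symm
  · push Not at hq
    refine ⟨0, InM.zero S, rfl, fun x hx => ⟨0, fun i hi => ?_⟩⟩
    obtain ⟨r, hrM, hrj, hrx⟩ := hr x hx
    rw [← hrx i hi, hq r hrM hrj]
    simp

/-- boundary of colour functions in case 2 -/
lemma bd_case2 {j : ι} {q : ι → ZMod 2} (hqj : q j = 0) {v : V} {s : ZMod 2}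
    (hs : ∀ i, i ≠ j → ((eps t h col v i : ℤ) : ZMod 2) = s * q i) (g : ι → ZMod 2) :
    bd t h (fun e => g (col e)) v =
      ((eps t h col v j : ℤ) : ZMod 2) * g j + s * ∑ i, q i * g i := by
  rw [bd_col2, ← Finset.add_sum_erase _ _ (Finset.mem_univ j),
    ← Finset.add_sum_erase _ (fun i => q i * g i) (Finset.mem_univ j), hqj, zero_mul, zero_add,
    Finset.mul_sum]
  congr 1
  apply Finset.sum_congr rfl
  intro i hi
  rw [hs i (Finset.ne_of_mem_erase hi), mul_assoc]

/-- Case 2a -/
lemma Data.case2a (hD : Data t h col vec S) {j : ι} {q : ι → ZMod 2}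
    (hqj : q j = 0) (hq : ∀ x, InM S x → ∃ s : ZMod 2, ∀ i, i ≠ j → x i = s * q i)
    (hsum : ∑ i, q i = 0) : Two t h := by
  obtain ⟨J, hJ, hJ'⟩ := hD.join j (fun i => i ≠ j) (by
    intro m hm hm0
    have h1 := hD.rel m hm
    rw [Finset.sum_eq_single j] at h1
    · rw [smul_eq_zero] at h1
      rcases h1 with h1 | h1
      · exact_mod_cast h1
      · exact absurd h1 (hD.vec_ne j)
    · intro i _ hi
      rw [hm0 i hi]; simp
    · intro h'; exact absurd (Finset.mem_univ _) h')
  refine ⟨fun e => if col e = j then 0 else 1, fun e => (if col e = j then 1 else 0) + J e,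
    ?_, ?_, ?_⟩
  · intro v
    obtain ⟨s, hs⟩ := hq _ (hD.inM v)
    rw [bd_case2 hqj hs (fun i => if i = j then 0 else 1)]
    have : ∀ i, q i * (if i = j then 0 else 1) = q i := by
      intro i
      by_cases hi : i = j
      · subst hi; simp [hqj]
      · simp [hi]
    simp only [this, hsum]
    simp
  · intro v
    obtain ⟨s, hs⟩ := hq _ (hD.inM v)
    rw [bd_add, bd_case2 hqj hs (fun i => if i = j then 1 else 0), hJ']
    simp [hqj, CharTwo.add_self_eq_zero]
  · intro e
    by_cases he : col e = j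
    · right
      simp only [he, if_true]
      rw [hJ e (fun h' => h' he), add_zero]
      exact one_ne_zero
    · left
      simp [he]

/-- Case 2b -/
lemma Data.case2b (hD : Data t h col vec S) {j : ι} {q : ι → ZMod 2}
    (hqj : q j = 0) (hq : ∀ x, InM S x → ∃ s : ZMod 2, ∀ i, i ≠ j → x i = s * q i)
    (hsum : ∑ i, q i = 1) {i₀ i₁ : ι} (h01 : i₀ ≠ i₁) (hq0 : q i₀ = 1) (hq1 : q i₁ = 1)
    (hv : vec i₀ ≠ - vec j) : Two t h := by
  have n0 : i₀ ≠ j := by rintro rfl; rw [hqj] at hq0; exact zero_ne_one hq0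
  have n1 : i₁ ≠ j := by rintro rfl; rw [hqj] at hq1; exact zero_ne_one hq1
  obtain ⟨J, hJ, hJ'⟩ := hD.join j (fun i => i ≠ j ∧ i ≠ i₀) (by
    intro m hm hm0
    have h1 := hD.rel m hm
    rw [← Finset.add_sum_erase _ _ (Finset.mem_univ j),
      ← Finset.add_sum_erase _ _ (Finset.mem_erase.mpr ⟨n0, Finset.mem_univ i₀⟩),
      Finset.sum_eq_zero, add_zero] at h1
    · have h2 := indep_of_unit (hD.unit j) (hD.unit i₀) (fun e => n0 (hD.inj e).symm) hv h1
      exact_mod_cast h2
    · intro i hi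
      rw [Finset.mem_erase, Finset.mem_erase] at hi
      rw [hm0 i ⟨hi.2.1, hi.1⟩]; simp)
  refine ⟨fun e => if col e = j ∨ col e = i₀ then 0 else 1,
    fun e => (if col e = j ∨ col e = i₀ ∨ col e = i₁ then 1 else 0) + J e, ?_, ?_, ?_⟩
  · intro v
    obtain ⟨s, hs⟩ := hq _ (hD.inM v)
    rw [bd_case2 hqj hs (fun i => if i = j ∨ i = i₀ then 0 else 1)]
    have : ∀ i, q i * (if i = j ∨ i = i₀ then 0 else 1) = q i + (if i = i₀ then 1 else 0) := by
      intro i
      by_cases hi : i = i₀
      · subst hi; simp [hq0, CharTwo.add_self_eq_zero]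
      · by_cases hi' : i = j
        · subst hi'; simp [hqj, hi]
        · simp [hi, hi']
    simp only [this]
    rw [Finset.sum_add_distrib, hsum]
    simp [CharTwo.add_self_eq_zero]
  · intro v
    obtain ⟨s, hs⟩ := hq _ (hD.inM v)
    rw [bd_add, bd_case2 hqj hs (fun i => if i = j ∨ i = i₀ ∨ i = i₁ then 1 else 0), hJ']
    have : ∀ i, q i * (if i = j ∨ i = i₀ ∨ i = i₁ then 1 else 0) =
        (if i = i₀ then 1 else 0) + (if i = i₁ then 1 else 0) := by
      intro i
      by_cases hi : i = i₀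
      · subst hi; simp [hq0, h01]
      · by_cases hi' : i = i₁
        · subst hi'; simp [hq1, hi]
        · by_cases hi'' : i = j
          · subst hi''; simp [hqj, hi, hi']
          · simp [hi, hi', hi'']
    simp only [this]
    rw [Finset.sum_add_distrib]
    simp [CharTwo.add_self_eq_zero]
  · intro e
    by_cases he : col e = j ∨ col e = i₀
    · right
      have he' : col e = j ∨ col e = i₀ ∨ col e = i₁ := by tauto
      simp only [he', if_true]
      rw [hJ e (fun h' => by tauto), add_zero]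
      exact one_ne_zero
    · left
      simp [he]

/-- Case 2c -/
lemma Data.case2c (hD : Data t h col vec S) {j : ι} {q : ι → ZMod 2} (hjM : InM S (Pi.single j 1))
    (hqM : InM S q)
    (hqj : q j = 0) (hq : ∀ x, InM S x → ∃ s : ZMod 2, ∀ i, i ≠ j → x i = s * q i)
    {i₁ : ι} (hq1 : ∀ i, q i = if i = i₁ then 1 else 0) : Two t h := by
  have n1 : i₁ ≠ j := by
    rintro rfl
    rw [hq1] at hqj
    simp at hqj
  obtain ⟨m₁, hm₁, hm₁'⟩ := hjM
  obtain ⟨m₂, hm₂, hm₂'⟩ := hqM
  -- the coordinates `j` and `i₁` separate the points of `S`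
  have hdet : (m₁ j : ℚ) * m₂ i₁ - m₁ i₁ * m₂ j ≠ 0 := by
    intro h0
    have h1 : m₁ j * m₂ i₁ - m₁ i₁ * m₂ j = 0 := by exact_mod_cast h0
    have h2 := congrArg (fun z : ℤ => (z : ZMod 2)) h1
    simp only [Int.cast_sub, Int.cast_mul, hm₁', hm₂', hq1, Int.cast_zero] at h2
    simp [n1.symm] at h2
  set δ : ℚ := (m₁ j : ℚ) * m₂ i₁ - m₁ i₁ * m₂ j with hδ
  obtain ⟨u, huS, huj, hu1⟩ : ∃ u ∈ S, u j = 1 ∧ u i₁ = 0 := by
    refine ⟨(m₂ i₁ / δ : ℚ) • (fun i => (m₁ i : ℚ)) - (m₁ i₁ / δ : ℚ) • (fun i => (m₂ i : ℚ)),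
      S.sub_mem (S.smul_mem _ hm₁) (S.smul_mem _ hm₂), ?_, ?_⟩
    · simp only [Pi.sub_apply, Pi.smul_apply, smul_eq_mul]
      field_simp
      rw [hδ]; ring
    · simp only [Pi.sub_apply, Pi.smul_apply, smul_eq_mul]
      field_simp
      ring
  obtain ⟨w, hwS, hwj, hw1⟩ : ∃ w ∈ S, w j = 0 ∧ w i₁ = 1 := by
    refine ⟨(m₁ j / δ : ℚ) • (fun i => (m₂ i : ℚ)) - (m₂ j / δ : ℚ) • (fun i => (m₁ i : ℚ)),
      S.sub_mem (S.smul_mem _ hm₂) (S.smul_mem _ hm₁), ?_, ?_⟩
    · simp only [Pi.sub_apply, Pi.smul_apply, smul_eq_mul]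
      field_simp
      ring
    · simp only [Pi.sub_apply, Pi.smul_apply, smul_eq_mul]
      field_simp
      rw [hδ]; ring
  have hspan : ∀ m ∈ S, ∀ i, m i = m j * u i + m i₁ * w i := by
    intro m hm
    let f : Fin 3 → S := ![⟨u, huS⟩, ⟨w, hwS⟩, ⟨m, hm⟩]
    have hnot : ¬ LinearIndependent ℚ f := by
      intro hli
      have := hli.fintype_card_le_finrank
      simp only [Fintype.card_fin] at this
      have := hD.rank
      omega
    rw [Fintype.not_linearIndependent_iff] at hnot
    obtain ⟨g, hg, i₀, hi₀⟩ := hnot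
    have hrel : ∀ i, g 0 * u i + g 1 * w i + g 2 * m i = 0 := by
      intro i
      have h1 := congrArg (fun s : S => (s : ι → ℚ) i) hg
      simp only [Fin.sum_univ_three, f, Matrix.cons_val_zero, Matrix.cons_val_one, Matrix.cons_val,
        Submodule.coe_add, Pi.add_apply, Submodule.coe_zero, Pi.zero_apply, Submodule.coe_smul,
        Pi.smul_apply, smul_eq_mul] at h1
      exact h1
    have r1 := hrel j
    have r2 := hrel i₁
    rw [huj, hwj] at r1
    rw [hu1, hw1] at r2
    have hg2 : g 2 ≠ 0 := by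
      intro h0
      rw [h0] at r1 r2
      apply hi₀
      fin_cases i₀
      · simpa using r1
      · simpa using r2
      · exact h0
    intro i
    have r3 := hrel i
    have e0 : g 0 = - (g 2 * m j) := by linarith
    have e1 : g 1 = - (g 2 * m i₁) := by linarith
    rw [e0, e1] at r3
    have : g 2 * (m i - (m j * u i + m i₁ * w i)) = 0 := by linear_combination r3
    rcases mul_eq_zero.mp this with h' | h'
    · exact absurd h' hg2
    · linarith
  -- two further colours
  obtain ⟨k₃, k₄, h34, h3j, h31, h4j, h41, hu3, hw4⟩ : ∃ k₃ k₄, k₃ ≠ k₄ ∧ k₃ ≠ j ∧ k₃ ≠ i₁ ∧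
      k₄ ≠ j ∧ k₄ ≠ i₁ ∧ u k₃ ≠ 0 ∧ w k₄ ≠ 0 := by
    by_contra hcon
    push Not at hcon
    have ru := hD.rel u huS
    have rw' := hD.rel w hwS
    rw [← Finset.add_sum_erase _ _ (Finset.mem_univ j),
      ← Finset.add_sum_erase _ _ (Finset.mem_erase.mpr ⟨n1, Finset.mem_univ i₁⟩), huj, hu1] at ru
    rw [← Finset.add_sum_erase _ _ (Finset.mem_univ j),
      ← Finset.add_sum_erase _ _ (Finset.mem_erase.mpr ⟨n1, Finset.mem_univ i₁⟩), hwj, hw1] at rw'
    simp only [Rat.cast_one, Rat.cast_zero, one_smul, zero_smul, zero_add] at ru rw'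
    have exu : ∃ k, k ≠ j ∧ k ≠ i₁ ∧ u k ≠ 0 := by
      by_contra hc
      push Not at hc
      rw [Finset.sum_eq_zero, add_zero] at ru
      · exact hD.vec_ne j ru
      · intro k hk
        rw [Finset.mem_erase, Finset.mem_erase] at hk
        rw [hc k hk.2.1 hk.1]; simp
    have exw : ∃ k, k ≠ j ∧ k ≠ i₁ ∧ w k ≠ 0 := by
      by_contra hc
      push Not at hc
      rw [Finset.sum_eq_zero, add_zero] at rw'
      · exact hD.vec_ne i₁ rw'
      · intro k hk
        rw [Finset.mem_erase, Finset.mem_erase] at hk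
        rw [hc k hk.2.1 hk.1]; simp
    obtain ⟨k, hkj, hk1, huk⟩ := exu
    obtain ⟨k', hkj', hk1', hwk'⟩ := exw
    have hkk : k = k' := by
      by_contra hne
      exact hwk' (hcon k k' hne hkj hk1 hkj' hk1' huk)
    subst hkk
    have hkmem : k ∈ (Finset.univ.erase j).erase i₁ :=
      Finset.mem_erase.mpr ⟨hk1, Finset.mem_erase.mpr ⟨hkj, Finset.mem_univ k⟩⟩
    rw [Finset.sum_eq_single_of_mem k hkmem] at ru
    · rw [Finset.sum_eq_single_of_mem k hkmem] at rw'
      · -- `vec j = - u k • vec k`, `vec i₁ = - w k • vec k`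
        have norm1 : ∀ {a : ℝ} {v : X}, ‖v‖ = 1 → v + a • vec k = 0 → v ≠ vec k →
            v = - vec k := by
          intro a v hv hrel hne
          have h3 : v = -(a • vec k) := eq_neg_of_add_eq_zero_left hrel
          have h4 : |a| = 1 := by
            have := congrArg norm h3
            rw [norm_neg, norm_smul, hv, hD.unit k, mul_one, Real.norm_eq_abs] at this
            exact this.symm
          rcases (abs_eq (zero_le_one' ℝ)).mp h4 with h5 | h5
          · rw [h5, one_smul] at h3; exact h3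
          · rw [h5, neg_smul, one_smul, neg_neg] at h3
            exact absurd h3 hne
        have e1 := norm1 (hD.unit j) ru (fun e => hkj (hD.inj e).symm)
        have e2 := norm1 (hD.unit i₁) rw' (fun e => hk1 (hD.inj e).symm)
        exact n1 (hD.inj (e2.trans e1.symm))
      · intro i hi hik
        rw [Finset.mem_erase, Finset.mem_erase] at hi
        have := hcon k i (Ne.symm hik) hkj hk1 hi.2.1 hi.1 huk
        rw [this]; simp
    · intro i hi hik
      rw [Finset.mem_erase, Finset.mem_erase] at hi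
      have : u i = 0 := by
        by_contra hui
        exact hwk' (hcon i k hik hi.2.1 hi.1 hkj hk1 hui)
      rw [this]; simp
  obtain ⟨J, hJ, hJ'⟩ := hD.join j (fun i => i = i₁ ∨ i = k₃) (by
    intro m hm hm0
    have h1 := hspan m hm k₃
    rw [hm0 k₃ (Or.inr rfl), hm0 i₁ (Or.inl rfl)] at h1
    have h2 : m j * u k₃ = 0 := by linarith
    rcases mul_eq_zero.mp h2 with h' | h'
    · exact h'
    · exact absurd h' hu3)
  obtain ⟨K, hK, hK'⟩ := hD.join i₁ (fun i => i = j ∨ i = k₄) (by
    intro m hm hm0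
    have h1 := hspan m hm k₄
    rw [hm0 k₄ (Or.inr rfl), hm0 j (Or.inl rfl)] at h1
    have h2 : m i₁ * w k₄ = 0 := by linarith
    rcases mul_eq_zero.mp h2 with h' | h'
    · exact h'
    · exact absurd h' hw4)
  refine ⟨fun e => (if col e = i₁ then 0 else 1) + J e, fun e => (if col e = j then 0 else 1) + K e,
    ?_, ?_, ?_⟩
  · intro v
    obtain ⟨s, hs⟩ := hq _ (hD.inM v)
    rw [bd_add, bd_case2 hqj hs (fun i => if i = i₁ then 0 else 1), hJ']
    have : ∀ i, q i * (if i = i₁ then 0 else 1) = 0 := by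
      intro i
      rw [hq1]
      by_cases hi : i = i₁ <;> simp [hi]
    simp only [this]
    simp [n1.symm, CharTwo.add_self_eq_zero]
  · intro v
    obtain ⟨s, hs⟩ := hq _ (hD.inM v)
    rw [bd_add, bd_case2 hqj hs (fun i => if i = j then 0 else 1), hK']
    have h1 := hs i₁ n1
    rw [hq1, if_pos rfl, mul_one] at h1
    have : ∀ i, q i * (if i = j then 0 else 1) = if i = i₁ then 1 else 0 := by
      intro i
      rw [hq1]
      by_cases hi : i = i₁
      · subst hi; simp [n1]
      · simp [hi]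
    simp only [this, h1]
    simp [CharTwo.add_self_eq_zero]
  · intro e
    by_cases hej : col e = j
    · left
      beta_reduce
      have h1 : J e = 0 := hJ e (by rw [hej]; push Not; exact ⟨n1.symm, h3j.symm⟩)
      rw [h1, hej, if_neg n1.symm, add_zero]
      exact one_ne_zero
    · by_cases he1 : col e = i₁
      · right
        beta_reduce
        have h1 : K e = 0 := hK e (by rw [he1]; push Not; exact ⟨n1, h41.symm⟩)
        rw [h1, he1, if_neg n1, add_zero]
        exact one_ne_zero
      · by_cases he3 : col e = k₃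
        · right
          beta_reduce
          have h1 : K e = 0 := hK e (by rw [he3]; push Not; exact ⟨h3j, h34⟩)
          rw [h1, if_neg hej, add_zero]
          exact one_ne_zero
        · left
          beta_reduce
          have h1 : J e = 0 := hJ e (by push Not; exact ⟨he1, he3⟩)
          rw [h1, if_neg he1, add_zero]
          exact one_ne_zero

/-- Two even subgraphs cover all edges. -/
theorem Data.two (hD : Data t h col vec S) : Two t h := by
  by_cases hno : ∀ j, ¬ InM S (Pi.single j 1)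
  · exact hD.case1 hno
  push Not at hno
  obtain ⟨j, hj⟩ := hno
  obtain ⟨q, hqM, hqj, hq⟩ := hD.exists_q hj
  rcases zmod2_cases (∑ i, q i) with hs | hs
  · exact hD.case2a hqj hq hs
  have hex : ∃ i₁, q i₁ = 1 := by
    by_contra hc
    push Not at hc
    rw [Finset.sum_eq_zero (fun i _ => (zmod2_cases (q i)).resolve_right (hc i))] at hs
    exact zero_ne_one hs
  obtain ⟨i₁, hi₁⟩ := hex
  by_cases hother : ∃ i₂, i₂ ≠ i₁ ∧ q i₂ = 1
  · obtain ⟨i₂, h21, hi₂⟩ := hother
    by_cases hv : vec i₁ = - vec j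
    · have hv2 : vec i₂ ≠ - vec j := fun e => h21 (hD.inj (e.trans hv.symm))
      exact hD.case2b hqj hq hs h21 hi₂ hi₁ hv2
    · exact hD.case2b hqj hq hs (Ne.symm h21) hi₁ hi₂ hv
  · push Not at hother
    refine hD.case2c hj hqM hqj hq (i₁ := i₁) ?_
    intro i
    by_cases hi : i = i₁
    · subst hi; simp [hi₁]
    · simp only [hi, if_false]
      exact (zmod2_cases (q i)).resolve_right (hother i hi)

end Pool.Agent.Lib.MP_12428a_co
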