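import Mathlib

/-!
Flows on finite multigraphs.
-/

set_option autoImplicit false

open scoped Classical

namespace Pool.Agent.Lib.MP_12428a_co

/-- A graph with vertex set `V` and edge set `E`: every edge has an unordered pair of ends.
Parallel edges and loops are allowed. -/
structure MGraph (V E : Type) where
  ends : E → Sym2 V

/-- An orientation of a graph: every edge gets a tail and a head, which are its two ends. -/
structure MGraph.Orientation {V E : Type} (G : MGraph V E) where
  tail : E → V
  head : E → V
  ends_eq : ∀ e, s(tail e, head e) = G.ends e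

namespace MGraph.Orientation

variable {V E : Type} [Fintype E] {G : MGraph V E} (O : G.Orientation)

/-- `E⁺(v)`: the non-loop edges with tail `v`. -/
noncomputable def outEdges (v : V) : Finset E :=
  Finset.univ.filter (fun e => O.tail e = v ∧ O.head e ≠ v)

/-- `E⁻(v)`: the non-loop edges with head `v`. -/
noncomputable def inEdges (v : V) : Finset E :=
  Finset.univ.filter (fun e => O.head e = v ∧ O.tail e ≠ v)

/-- `φ` is an `A`-flow: its values are nonzero and at every vertex `v` the sum over `E⁺(v)` equals
the sum over `E⁻(v)`. -/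
def IsFlow {A : Type} [AddCommGroup A] (φ : E → A) : Prop :=
  (∀ e, φ e ≠ 0) ∧ ∀ v, ∑ e ∈ O.outEdges v, φ e = ∑ e ∈ O.inEdges v, φ e

/-- A unit vector flow in Euclidean `d`-space: an `ℝ^d`-flow all of whose values have Euclidean
norm 1. For `d = 3` this is an `S²`-flow. -/
def IsUnitVectorFlow {d : ℕ} (φ : E → EuclideanSpace ℝ (Fin d)) : Prop :=
  O.IsFlow φ ∧ ∀ e, ‖φ e‖ = 1

/-- A 4-flow: a `ℤ`-flow with `0 < |f e| < 4` for every edge `e`. -/
def IsFourFlow (f : E → ℤ) : Prop :=
  O.IsFlow f ∧ ∀ e, 0 < |f e| ∧ |f e| < 4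

/-- The balanced vector of the vertex `v`, indexed by the set of values taken by `φ`: its
coordinate at the value `x` is `|E⁺(v) ∩ φ⁻¹(x)| - |E⁻(v) ∩ φ⁻¹(x)|`. -/
noncomputable def balanced {A : Type} (φ : E → A) (v : V) (x : Set.range φ) : ℤ :=
  (((O.outEdges v).filter (fun e => φ e = x)).card : ℤ) -
    (((O.inEdges v).filter (fun e => φ e = x)).card : ℤ)

/-- `S_ℚ(φ)`: the `ℚ`-linear span of the balanced vectors. -/
noncomputable def balancedSpan {A : Type} (φ : E → A) : Submodule ℚ (Set.range φ → ℚ) :=
  Submodule.span ℚ (Set.range (fun (v : V) (x : Set.range φ) => (O.balanced φ v x : ℚ)))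

end MGraph.Orientation

end Pool.Agent.Lib.MP_12428a_co
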