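import Mathlib
import Pool.Agent.Lib.MP_12428a_co.Defs
import Pool.Agent.Lib.MP_12428a_co.Cases

/-!
Unit vector flows whose balanced vectors have rank at most two give 4-flows.
-/

set_option autoImplicit false
set_option linter.unusedSectionVars false

open scoped Classical

namespace Pool.Agent.Lib.MP_12428a_co

namespace MGraph.Orientation

variable {V E : Type} [Fintype V] [Fintype E] {G : MGraph V E} (O : G.Orientation)

lemma bd_eq {A : Type} [AddCommGroup A] (f : E → A) (v : V) :
    bd O.tail O.head f v = ∑ e ∈ O.outEdges v, f e - ∑ e ∈ O.inEdges v, f e := by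
  simp only [bd, outEdges, inEdges, Finset.sum_filter]
  rw [← Finset.sum_sub_distrib]
  apply Finset.sum_congr rfl
  intro e _
  by_cases h1 : O.tail e = v <;> by_cases h2 : O.head e = v <;> simp [h1, h2]

lemma eps_eq {A : Type} (φ : E → A) [inst : DecidableEq (Set.range φ)] (v : V)
    (x : Set.range φ) :
    eps O.tail O.head (fun e => (⟨φ e, ⟨e, rfl⟩⟩ : Set.range φ)) v x = O.balanced φ v x := by
  have h : ∀ e, ((⟨φ e, ⟨e, rfl⟩⟩ : Set.range φ) = x) ↔ φ e = x := by
    intro e
    exact Subtype.ext_iff
  have h' : ∀ s : Finset E, ∑ e ∈ s, (if (⟨φ e, ⟨e, rfl⟩⟩ : Set.range φ) = x then (1 : ℤ) else 0) =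
      ((s.filter (fun e => φ e = x)).card : ℤ) := by
    intro s
    rw [Finset.card_filter]
    push_cast
    apply Finset.sum_congr rfl
    intro e _
    by_cases he : φ e = x
    · rw [if_pos he, if_pos ((h e).mpr he)]
    · rw [if_neg he, if_neg (fun h2 => he ((h e).mp h2))]
  simp only [eps, balanced]
  rw [bd_eq, h', h']

/-- Main theorem. -/
theorem main {d : ℕ} (φ : E → EuclideanSpace ℝ (Fin d)) (hφ : O.IsUnitVectorFlow φ)
    (hrank : Module.finrank ℚ (O.balancedSpan φ) ≤ 2) (O' : G.Orientation) :
    ∃ f : E → ℤ, O'.IsFourFlow f := by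
  let col : E → Set.range φ := fun e => ⟨φ e, ⟨e, rfl⟩⟩
  have hD : Data O.tail O.head col (fun x : Set.range φ => (x : EuclideanSpace ℝ (Fin d)))
      (O.balancedSpan φ) :=
    { inj := Subtype.val_injective
      unit := by
        rintro ⟨x, e, rfl⟩
        exact hφ.2 e
      rank := hrank
      eps_mem := by
        intro v
        apply Submodule.subset_span
        refine ⟨v, ?_⟩
        funext x
        change ((O.balanced φ v x : ℤ) : ℚ) = _
        rw [← O.eps_eq φ v x]
      rel := by
        intro m hm
        have hle : O.balancedSpan φ ≤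
            { carrier := {m | ∑ i, (m i : ℝ) • (i : EuclideanSpace ℝ (Fin d)) = 0}
              add_mem' := by
                intro a b ha hb
                simp only [Set.mem_ofPred_eq] at ha hb ⊢
                simp only [Pi.add_apply, Rat.cast_add, add_smul, Finset.sum_add_distrib, ha, hb,
                  add_zero]
              zero_mem' := by simp
              smul_mem' := by
                intro c a ha
                simp only [Set.mem_ofPred_eq] at ha ⊢
                simp only [Pi.smul_apply, smul_eq_mul, Rat.cast_mul, mul_smul, ← Finset.smul_sum,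
                  ha, smul_zero] } := by
          apply Submodule.span_le.mpr
          rintro _ ⟨v, rfl⟩
          change ∑ i : Set.range φ, (((O.balanced φ v i : ℤ) : ℚ) : ℝ) •
            (i : EuclideanSpace ℝ (Fin d)) = 0
          have h1 := bd_col O.tail O.head col
            (fun x : Set.range φ => (x : EuclideanSpace ℝ (Fin d))) v
          have h2 : bd O.tail O.head (fun e => ((col e : Set.range φ) :
              EuclideanSpace ℝ (Fin d))) v = 0 := by
            change bd O.tail O.head φ v = 0
            rw [O.bd_eq, hφ.1.2 v, sub_self]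
          rw [h2] at h1
          rw [h1]
          apply Finset.sum_congr rfl
          intro x _
          rw [show eps O.tail O.head col v x = O.balanced φ v x from O.eps_eq φ v x,
            Rat.cast_intCast, Int.cast_smul_eq_zsmul]
        exact hle hm }
  obtain ⟨x, y, hx, hy, hxy⟩ := hD.two
  obtain ⟨f, hf, hf'⟩ := four_of_pair O.tail O.head x y hx hy hxy
  refine ⟨fun e => if O'.tail e = O.tail e then f e else - f e, ⟨?_, ?_⟩, ?_⟩
  · intro e
    have := hf e
    have h0 : f e ≠ 0 := abs_pos.mp this.1
    by_cases h : O'.tail e = O.tail e <;> simp [h, h0]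
  · intro v
    rw [← sub_eq_zero, ← O'.bd_eq, ← hf' v]
    unfold bd
    apply Finset.sum_congr rfl
    intro e _
    have h1 : s(O'.tail e, O'.head e) = s(O.tail e, O.head e) := by
      rw [O'.ends_eq, O.ends_eq]
    rw [Sym2.eq_iff] at h1
    rcases h1 with ⟨h2, h3⟩ | ⟨h2, h3⟩
    · simp only [h2, h3, if_true]
    · by_cases h4 : O.head e = O.tail e
      · simp only [h2, h3, h4, if_true, sub_self]
      · simp only [h2, h3, h4, if_false]
        split_ifs <;> ring
  · intro e
    have := hf e
    by_cases h : O'.tail e = O.tail e <;> simp [h, this]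

end MGraph.Orientation

end Pool.Agent.Lib.MP_12428a_co
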